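import Pool.Agent.W941.MG.Stm

/-! Project MG, part KER (helper85). -/

set_option autoImplicit false
set_option maxHeartbeats 4000000

namespace Pool.Agent.W85.MG

open Pool.Agent.W941.MG

section

variable {b n : ℕ} {V : Type} [AddCommGroup V]

/-- the difference of the class sums -/
def Psi (f g : Fin n → Fin b) : (Fin n → V) →+ (Fin b → V) where
  toFun w j := ∑ c ∈ Finset.univ.filter (fun c => f c = j), w c -
    ∑ c ∈ Finset.univ.filter (fun c => g c = j), w c
  map_zero' := by
    funext j
    simp
  map_add' u w := by
    funext j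
    simp only [Pi.add_apply, Finset.sum_add_distrib]
    abel

theorem Psi_single (f g : Fin n → Fin b) (c : Fin n) (v : V) :
    Psi f g (Pi.single c v) = Pi.single (f c) v - Pi.single (g c) v := by
  funext j
  show ∑ c' ∈ Finset.univ.filter (fun c' => f c' = j), (Pi.single c v : Fin n → V) c' -
    ∑ c' ∈ Finset.univ.filter (fun c' => g c' = j), (Pi.single c v : Fin n → V) c' = _
  rw [Finset.sum_pi_single', Finset.sum_pi_single', Pi.sub_apply, Pi.single_apply, Pi.single_apply]
  simp only [Finset.mem_filter, Finset.mem_univ, true_and, eq_comm (a := j)]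

theorem linked (f g : Fin n → Fin b) (i j : Fin b)
    (h : Relation.EqvGen (fun i j => ∃ c, f c = i ∧ g c = j) i j) :
    ∀ v : V, (Pi.single i v - Pi.single j v : Fin b → V) ∈ (Psi (V := V) f g).range := by
  induction h with
  | rel i j h =>
    obtain ⟨c, rfl, rfl⟩ := h
    intro v
    exact ⟨Pi.single c v, Psi_single f g c v⟩
  | refl i =>
    intro v
    rw [sub_self]
    exact zero_mem _
  | symm i j _ ih =>
    intro v
    rw [← neg_sub]
    exact neg_mem (ih v)
  | trans i j k _ _ ih1 ih2 =>
    intro v
    have h1 := add_mem (ih1 v) (ih2 v)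
    rw [sub_add_sub_cancel] at h1
    exact h1

end

theorem ker : KerStmt := by
  intro b n V _ _ _ f g ρ hρ
  classical
  -- representatives
  obtain ⟨σ, hσ⟩ : ∃ σ : Fin b → Fin b, ∀ i, ρ (σ (ρ i)) = ρ i := by
    refine ⟨fun x => if h : ∃ j, ρ j = x then h.choose else x, ?_⟩
    intro i
    have h : ∃ j, ρ j = ρ i := ⟨i, rfl⟩
    simp only
    rw [dif_pos h]
    exact h.choose_spec
  obtain ⟨r, hr⟩ : ∃ r : Fin b → Fin b, r = fun i => σ (ρ i) := ⟨_, rfl⟩
  have hρr : ∀ i, ρ (r i) = ρ i := by
    intro i
    rw [hr]
    exact hσ i
  have hrr : ∀ i j, ρ i = ρ j → r i = r j := by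
    intro i j h
    rw [hr]
    simp only
    rw [h]
  have hrrr : ∀ i, r (r i) = r i := fun i => hrr _ _ (hρr i)
  -- the number of moved indices
  have hfix : (Finset.univ.filter (fun i : Fin b => r i = i)).card ≤ (Finset.univ.image ρ).card := by
    apply Finset.card_le_card_of_injOn ρ
    · intro i _
      exact Finset.mem_coe.2 (Finset.mem_image_of_mem ρ (Finset.mem_univ i))
    · intro i hi j hj h
      rw [Finset.mem_coe, Finset.mem_filter] at hi hj
      rw [← hi.2, ← hj.2]
      exact hrr i j h
  have hmov : b - (Finset.univ.image ρ).card ≤ Fintype.card {i : Fin b // r i ≠ i} := by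
    have h1 := Finset.card_filter_add_card_filter_not (s := (Finset.univ : Finset (Fin b)))
      (fun i => r i = i)
    rw [Finset.card_univ, Fintype.card_fin] at h1
    have h2 : Fintype.card {i : Fin b // r i ≠ i} =
        (Finset.univ.filter (fun i : Fin b => ¬ r i = i)).card := Fintype.card_subtype _
    omega
  -- the range is large
  have hmem : ∀ u : {i : Fin b // r i ≠ i} → V,
      (∑ i : {i : Fin b // r i ≠ i}, (Pi.single i.1 (u i) - Pi.single (r i.1) (u i) : Fin b → V)) ∈
        (Psi (V := V) f g).range := by
    intro u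
    apply sum_mem
    intro i _
    apply linked f g i.1 (r i.1)
    rw [← hρ]
    exact (hρr i.1).symm
  have hinj : Function.Injective (fun u : {i : Fin b // r i ≠ i} → V =>
      (⟨_, hmem u⟩ : (Psi (V := V) f g).range)) := by
    intro u u' h
    funext i
    have h1 := congrArg (fun z : (Psi (V := V) f g).range => (z : Fin b → V) i.1) h
    simp only [Finset.sum_apply, Pi.sub_apply] at h1
    have key : ∀ u : {i : Fin b // r i ≠ i} → V,
        ∑ j : {i : Fin b // r i ≠ i}, ((Pi.single j.1 (u j) : Fin b → V) i.1 -
          (Pi.single (r j.1) (u j) : Fin b → V) i.1) = u i := by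
      intro u
      rw [Finset.sum_eq_single i]
      · rw [Pi.single_eq_same, Pi.single_eq_of_ne, sub_zero]
        intro h2
        exact i.2 h2.symm
      · intro j _ hji
        rw [Pi.single_eq_of_ne, Pi.single_eq_of_ne, sub_zero]
        · intro h2
          apply i.2
          rw [h2]
          exact hrrr j.1
        · intro h2
          exact hji (Subtype.ext h2.symm)
      · intro h2
        exact absurd (Finset.mem_univ i) h2
    rw [key, key] at h1
    exact h1
  have hVpos : 0 < Fintype.card V := Fintype.card_pos
  have hrange : Fintype.card V ^ (b - (Finset.univ.image ρ).card) ≤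
      Nat.card (Psi (V := V) f g).range := by
    have h1 := Nat.card_le_card_of_injective _ hinj
    rw [Nat.card_eq_fintype_card, Fintype.card_fun] at h1
    exact (Nat.pow_le_pow_right hVpos hmov).trans h1
  have hker : (Finset.univ.filter fun w : Fin n → V => ∀ j,
      ∑ c ∈ Finset.univ.filter (fun c => f c = j), w c =
      ∑ c ∈ Finset.univ.filter (fun c => g c = j), w c).card = Nat.card (Psi (V := V) f g).ker := by
    rw [← Fintype.card_subtype, ← Nat.card_eq_fintype_card]
    apply Nat.card_congr
    apply Equiv.subtypeEquivRight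
    intro w
    rw [AddMonoidHom.mem_ker]
    constructor
    · intro h
      funext j
      show _ - _ = (0 : V)
      rw [h j, sub_self]
    · intro h j
      have h1 := congrFun h j
      exact sub_eq_zero.1 h1
  have htot : Nat.card (Psi (V := V) f g).ker * Nat.card (Psi (V := V) f g).range =
      Fintype.card V ^ n := by
    rw [← AddSubgroup.index_ker, AddSubgroup.card_mul_index, Nat.card_eq_fintype_card,
      Fintype.card_fun, Fintype.card_fin]
  have hfin : (Finset.univ.filter fun w : Fin n → V => ∀ j,
      ∑ c ∈ Finset.univ.filter (fun c => f c = j), w c =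
      ∑ c ∈ Finset.univ.filter (fun c => g c = j), w c).card *
      Fintype.card V ^ (b - (Finset.univ.image ρ).card) ≤ Fintype.card V ^ n := by
    rw [hker, ← htot]
    exact Nat.mul_le_mul_left _ hrange
  exact hfin

end Pool.Agent.W85.MG
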